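import Mathlib
import Pool.Agent.H8.GG

namespace Pool.Agent.Results.MP_6e1b89_gt.Add

open Pool.Agent.H8.Card Pool.Agent.H8.GG
open scoped Cardinal

theorem result (𝓕 : Set (Set ℝ)) (h : #𝓕 < min bNum (max gNum gfNum)) (hS : ∀ X ∈ 𝓕, S1 X) :
    S1 (⋃₀ 𝓕) := by
  rw [Set.sUnion_eq_iUnion]
  exact union (lt_min_iff.1 h).1 (lt_min_iff.1 h).2 _ fun a => hS _ a.2

end Pool.Agent.Results.MP_6e1b89_gt.Add
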